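import Pool.Agent.W162.Sauer3

/-!
# Sauer's question on quasiregular subgraphs has a negative answer

For every integer `k ≥ 2`, every real `C` and every real `F` there is a graph on `n ≥ 1` vertices
with at least `F n` edges in which no subgraph has all its degrees strictly between `k` and `C k`.

The graph: take `n` left vertices and levels `0, 1, …, m-1` of right vertices, the level `i` having
`n / d_i` vertices, where `d_i` grows doubly exponentially; every left vertex is joined to one
random vertex of each level.  A union bound shows that with positive probability, for every `j`,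
no set of `s ≤ const · n / d_{j+1}` vertices spans `9 s / 8` edges that use only the levels
`0, …, j`.  A subgraph with all degrees in `[3, M]` and `a` left vertices would have at most `a / 6`
edges at the levels with at most `a / (12 M)` vertices, at most `a` edges at the next level,
hence at least `11 a / 6` edges at the remaining levels, and these form a locally dense set.
-/

open Pool.Agent.W162.Sauer

namespace Pool.Agent.Results.MP_78fef3_co.NoQuasiregular

/-- For every integer `k ≥ 2` and all reals `C`, `F` there are `n ≥ 1` and a graph on `n` vertices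
with at least `F n` edges in which no nonempty subgraph has all its degrees strictly between `k`
and `C k`. -/
theorem result (k : ℕ) (hk : 2 ≤ k) (C F : ℝ) :
    ∃ (n : ℕ) (G : SimpleGraph (Fin n)), 1 ≤ n ∧ F * n ≤ (G.edgeSet.ncard : ℝ) ∧
      ∀ H : G.Subgraph, H.verts.Nonempty →
        ¬ ∀ x ∈ H.verts, (k : ℝ) < ((H.neighborSet x).ncard : ℝ) ∧
          ((H.neighborSet x).ncard : ℝ) < C * k := by
  classical
  set M : ℕ := max 1 ⌈C * k⌉₊ with hMdef
  have hM : 1 ≤ M := le_max_left _ _
  have hCM : C * k ≤ M := (Nat.le_ceil _).trans (by exact_mod_cast le_max_right _ _)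
  set m : ℕ := ⌈2 * F⌉₊ with hmdef
  have hFm : 2 * F ≤ m := Nat.le_ceil _
  obtain ⟨ω, hω⟩ := exists_good M hM m
  have hn1 : 1 ≤ dd M m := by have := two_le_dd M hM m; omega
  set e : VV (dd M m) (bet M m) ≃ Fin (Fintype.card (VV (dd M m) (bet M m))) :=
    Fintype.equivFin _ with he
  set G₀ := GG (bet M m) ω with hG₀
  let f : G₀ ≃g G₀.map e.toEmbedding := SimpleGraph.Iso.map e G₀
  have hcard : Fintype.card (VV (dd M m) (bet M m)) ≤ 2 * dd M m := by
    simp only [Fintype.card_sum, Fintype.card_fin, Fintype.card_sigma]
    have := sum_bet_le M hM m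
    omega
  have hcard1 : 1 ≤ Fintype.card (VV (dd M m) (bet M m)) := by
    simp only [Fintype.card_sum, Fintype.card_fin, Fintype.card_sigma]
    omega
  refine ⟨_, G₀.map e.toEmbedding, hcard1, ?_, ?_⟩
  · have h1 : (G₀.map e.toEmbedding).edgeSet.ncard = G₀.edgeSet.ncard := by
      rw [← Nat.card_coe_set_eq, ← Nat.card_coe_set_eq]
      exact Nat.card_congr f.symm.mapEdgeSet
    rw [h1]
    have h2 : m * dd M m ≤ G₀.edgeSet.ncard := edges_ge (bet M m) ω
    have h3 : (m : ℝ) * dd M m ≤ G₀.edgeSet.ncard := by exact_mod_cast h2
    refine le_trans ?_ h3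
    have h4 : (Fintype.card (VV (dd M m) (bet M m)) : ℝ) ≤ 2 * dd M m := by exact_mod_cast hcard
    have h5 : (0:ℝ) ≤ Fintype.card (VV (dd M m) (bet M m)) := Nat.cast_nonneg _
    have h6 : (0:ℝ) ≤ m := Nat.cast_nonneg _
    calc F * (Fintype.card (VV (dd M m) (bet M m)) : ℝ)
        ≤ (m / 2) * (Fintype.card (VV (dd M m) (bet M m)) : ℝ) :=
          mul_le_mul_of_nonneg_right (by linarith) h5
      _ ≤ (m / 2) * (2 * dd M m) := mul_le_mul_of_nonneg_left h4 (by positivity)
      _ = m * dd M m := by ring
  · intro H hne hdeg
    let H₀ : G₀.Subgraph := H.comap f.toHom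
    have hnb : ∀ x, (H₀.neighborSet x).ncard = (H.neighborSet (f x)).ncard := by
      intro x
      have h1 : H₀.neighborSet x = f ⁻¹' (H.neighborSet (f x)) := by
        ext v
        simp only [SimpleGraph.Subgraph.mem_neighborSet, Set.mem_preimage]
        constructor
        · intro h
          exact h.2
        · intro h
          exact ⟨f.map_adj_iff.1 (H.adj_sub h), h⟩
      rw [h1]
      apply Set.ncard_preimage_of_injective_subset_range f.injective
      intro y _
      exact f.surjective y
    refine no_sub M hM m (dd M m) (bet M m) (fun i => bet_cast M hM m i)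
      (fun t ht => sum_tail M hM m (m - t) t (by omega)) ω hω H₀ ?_ ?_
    · obtain ⟨y, hy⟩ := hne
      obtain ⟨x, rfl⟩ := f.surjective y
      exact ⟨x, hy⟩
    · intro x hx
      have h1 := hdeg (f x) hx
      rw [hnb x]
      constructor
      · have h2 : k < (H.neighborSet (f x)).ncard := by exact_mod_cast h1.1
        omega
      · have h2 : ((H.neighborSet (f x)).ncard : ℝ) ≤ M := h1.2.le.trans hCM
        exact_mod_cast h2

end Pool.Agent.Results.MP_78fef3_co.NoQuasiregular
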